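import Pool.Agent.MWN.StmtsH

/-!
Clause c4b of base (h) (adapted from the file of helper24 for c4c).
-/

set_option autoImplicit false

namespace Pool.Agent.MWN.H26

open Pool.Agent.Helper14_MV Pool.Agent.Helper2_MV Pool.Agent.MVO Pool.Agent.MWL Pool.Agent.MWS
  Pool.Agent.MWF

/-- three blocks -/
def b3 (x y z : List ℕ) : ℕ → List ℕ :=
  fun j => if j = 0 then x else if j = 1 then y else if j = 2 then z else []

theorem sub' {β : FIC} (g : ℕ → List ℕ) {l l' m m' : List ℕ} (h : RR β l l')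
    (e : l.flatMap g = m) (e' : l'.flatMap g = m') : RR β m m' := by
  rw [← e, ← e']
  exact h.sub g

theorem ctx {β : FIC} (p q : List ℕ) {l l' m m' : List ℕ} (h : RR β l l')
    (e : p ++ l ++ q = m) (e' : p ++ l' ++ q = m') : RR β m m' := by
  rw [← e, ← e']
  exact ((RR.refl p).append h).append (RR.refl q)

theorem tr {β : FIC} {l m n : List ℕ} (h : RR β l m) (h' : RR β m n) : RR β l n := β.trans h h'

theorem four {β : FIC} (H : HB β) : RR β [0, 0, 0, 0] [0, 0] :=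
  tr (ctx [] [0] H.ap.symm rfl rfl) H.ap.symm

/-- delete `4` -/
def gd (c : ℕ) : List ℕ := if c = 4 then [] else [c]

theorem two_b3 {x y z : List ℕ} (h : ∀ c ∈ x ++ (y ++ z), c = 0 ∨ c = 1) : Two01 2 (b3 x y z) := by
  intro j hj c hc
  have h1 : j = 0 ∨ j = 1 ∨ j = 2 := by omega
  rcases h1 with rfl | rfl | rfl
  · exact h c (List.mem_append_left _ hc)
  · exact h c (List.mem_append_right _ (List.mem_append_left _ hc))
  · exact h c (List.mem_append_right _ (List.mem_append_right _ hc))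

theorem ok_b3 {x y z : List ℕ} (h : ∀ c ∈ x ++ (y ++ z), c = 0 ∨ c = 1)
    (h0 : 2 ≤ deg 2 (ty (b3 x y z) 0)) (h1 : 2 ≤ deg 2 (ty (b3 x y z) 1)) :
    OkB 2 (b3 x y z) := by
  refine ⟨fun j hj c hc => ?_, fun j hj c hc => ?_⟩
  · have := two_b3 h j hj c hc
    unfold NS
    omega
  · rcases two_b3 h j hj c hc with rfl | rfl
    · exact h0
    · exact h1

theorem sh_b3 {a b : ℕ → ℕ} (h : ∀ j < 3, a j = b j ∨ (2 ≤ a j ∧ 2 ≤ b j)) : Sh 2 a b :=
  fun j hj => h j (by omega)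

theorem g022 {β : FIC} (hG : Oh β Bit.G) {a : ℕ → ℕ} (h : mw 2 a = [2, 0, 0, 3, 0, 0])
    (h' : mw 2 (ad 1 a 0) = [0, 0, 2, 0, 0, 3, 0, 0]) : Ab 1 (FC.ofFIC β) 2 a 0 := by
  have h1 : RR β [2, 0, 0] [0, 0, 2, 0, 0] := hG
  have h2 : RR β [2, 0, 0, 3, 0, 0] [0, 0, 2, 0, 0, 3, 0, 0] := ctx [] [3, 0, 0] h1 rfl rfl
  have h3 : RR β (mw 2 a) (mw 2 (ad 1 a 0)) := by
    rw [h, h']
    exact h2
  exact h3

theorem n4b (hp : NphStmt) (hx : NcxStmt) (ho : NcoStmt) (hd : NddStmt) (_ : MWL.ArrStmt) :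
    N4bStmt := by
  intro β H hi hm hJ
  by_contra hc
  have kf : ∀ {p q : List ℕ}, RR β (p ++ ([0, 0, 0, 0] ++ q)) (p ++ ([0, 0] ++ q)) :=
    fun {p q} => (RR.refl p).append ((four H).append (RR.refl q))
  by_cases hD : Oh β (Bit.D 0)
  · -- the case `D 0`
    have key : ∀ st, C3b β st := by
      intro st
      by_contra h3
      have hG : ¬ Oh β Bit.G := by
        intro hG
        apply h3
        cases st
        · exact ho β H hi 2 (b3 [1] [0, 0, 1] [0, 0]) (b3 [1] [0, 1, 0] [0, 0]) 0 1 0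
            (ok_b3 (by decide) (by decide) (by decide)) (ok_b3 (by decide) (by decide) (by decide))
            (two_b3 (by decide)) (two_b3 (by decide)) (sh_b3 (by decide)) (sh_b3 (by decide))
            (Or.inl ⟨rfl, rfl⟩) (Nat.zero_le _) (by decide) (by decide) (by decide)
            (g022 hG (by decide) (by decide))
        · exact ho β H hi 2 (b3 [1] [1, 0, 0] [0, 0]) (b3 [1] [0, 1, 0] [0, 0]) 0 1 0
            (ok_b3 (by decide) (by decide) (by decide)) (ok_b3 (by decide) (by decide) (by decide))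
            (two_b3 (by decide)) (two_b3 (by decide)) (sh_b3 (by decide)) (sh_b3 (by decide))
            (Or.inl ⟨rfl, rfl⟩) (Nat.zero_le _) (by decide) (by decide) (by decide)
            (g022 hG (by decide) (by decide))
      have hA1 : Clo β 3 (cd4 Cd.z Cd.one Cd.one Cd.one) := hx β H hi [8, 10] 3 _
        (by
          intro x hx
          simp only [List.mem_cons, List.not_mem_nil, or_false] at hx
          tauto) (by decide +kernel)
      have hB1 : Clo β 3 (cd4 Cd.one Cd.one Cd.z Cd.z) := hx β H hi [8] 3 _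
        (by
          intro x hx
          simp only [List.mem_cons, List.not_mem_nil, or_false] at hx
          tauto) (by decide +kernel)
      have hA2 : Clo β 3 (cd4 Cd.z Cd.pos Cd.any Cd.any) := hx β H hi [8, 10, 2] 3 _
        (by
          intro x hx
          simp only [List.mem_cons, List.not_mem_nil, or_false] at hx
          tauto) (by decide +kernel)
      rcases hp β H hi hm 3 1 (cd4 Cd.z Cd.one Cd.one Cd.one) (cd4 Cd.one Cd.one Cd.z Cd.z)
        (cd4 Cd.z Cd.pos Cd.any Cd.any) (cd4 Cd.one Cd.one Cd.z Cd.z) st (v4 0 2 2 2)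
        (v4 0 1 1 1) (v4 1 1 0 0) (v4 1 1 0 0) (by decide +kernel) (by decide) (by decide)
        (by decide) (by decide) hA1 hB1 hA2 hB1 with h | h
      · apply hc
        cases st
        · have h1 : RR β [1, 2, 0, 1, 3, 0, 4, 0] [1, 2, 1, 0, 3, 0, 4, 0] := h
          exact sub' gd h1 rfl rfl
        · have h1 : RR β [1, 2, 1, 0, 3, 0, 4, 0] [1, 2, 0, 1, 3, 0, 4, 0] := h
          exact sub' gd h1.symm rfl rfl
      · apply h3
        cases st
        · have h1 : RR β [1, 2, 0, 0, 1, 3, 0, 0, 4, 0, 0] [1, 2, 0, 1, 0, 3, 0, 0, 4, 0, 0] := h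
          have h2 : RR β [1, 2, 0, 0, 1, 3, 0, 0, 0, 0] [1, 2, 0, 1, 0, 3, 0, 0, 0, 0] :=
            sub' gd h1 rfl rfl
          exact tr (RR.symm (kf (p := [1, 2, 0, 0, 1, 3]) (q := [])))
            (tr h2 (kf (p := [1, 2, 0, 1, 0, 3]) (q := [])))
        · have h1 : RR β [1, 2, 1, 0, 0, 3, 0, 0, 4, 0, 0] [1, 2, 0, 1, 0, 3, 0, 0, 4, 0, 0] := h
          have h2 : RR β [1, 2, 1, 0, 0, 3, 0, 0, 0, 0] [1, 2, 0, 1, 0, 3, 0, 0, 0, 0] :=
            sub' gd h1 rfl rfl
          exact tr (RR.symm (kf (p := [1, 2, 1, 0, 0, 3]) (q := [])))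
            (tr h2 (kf (p := [1, 2, 0, 1, 0, 3]) (q := [])))
    apply hc
    have s1 : RR β [1, 2, 0, 1, 3, 0, 0] [1, 2, 0, 0, 1, 3, 0, 0] := hd β H hD [1, 2] [1, 3] [] 0
    have s2 : RR β [1, 2, 0, 0, 1, 3, 0, 0] [1, 2, 0, 1, 0, 3, 0, 0] := key false
    have s3 : RR β [1, 2, 1, 0, 0, 3, 0, 0] [1, 2, 0, 1, 0, 3, 0, 0] := key true
    have s4 : RR β [1, 2, 1, 0, 3, 0, 0] [1, 2, 1, 0, 0, 3, 0, 0] := hd β H hD [1, 2, 1] [3] [] 0
    exact tr s1 (tr s2 (tr s3.symm s4.symm))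
  · -- the case without `D 0`
    have hG : ¬ Oh β Bit.G := by
      intro hG
      apply hD
      have h1 : RR β [2, 0, 0] [0, 0, 2, 0, 0] := hG
      have h2 : RR β [0, 2, 0, 0] [0, 0, 0, 2, 0, 0] := ctx [0] [] h1 rfl rfl
      exact h2
    have hA1 : Clo β 3 (cd4 Cd.z Cd.one Cd.one Cd.one) := hx β H hi [8, 10] 3 _
      (by
        intro x hx
        simp only [List.mem_cons, List.not_mem_nil, or_false] at hx
        tauto) (by decide +kernel)
    have hB1 : Clo β 3 (cd4 Cd.one Cd.one Cd.z Cd.z) := hx β H hi [8] 3 _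
      (by
        intro x hx
        simp only [List.mem_cons, List.not_mem_nil, or_false] at hx
        tauto) (by decide +kernel)
    have hA2 : Clo β 3 (cd4 Cd.z Cd.one Cd.any Cd.any) := hx β H hi [8, 10, 3, 2] 3 _
      (by
        intro x hx
        simp only [List.mem_cons, List.not_mem_nil, or_false] at hx
        tauto) (by decide +kernel)
    apply hc
    rcases hp β H hi hm 3 1 (cd4 Cd.z Cd.one Cd.one Cd.one) (cd4 Cd.one Cd.one Cd.z Cd.z)
      (cd4 Cd.z Cd.one Cd.any Cd.any) (cd4 Cd.one Cd.one Cd.z Cd.z) false (v4 0 1 2 2)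
      (v4 0 1 1 1) (v4 1 1 0 0) (v4 1 1 0 0) (by decide +kernel) (by decide) (by decide)
      (by decide) (by decide) hA1 hB1 hA2 hB1 with h | h
    · have h1 : RR β [1, 2, 0, 1, 3, 0, 4, 0] [1, 2, 1, 0, 3, 0, 4, 0] := h
      exact sub' gd h1 rfl rfl
    · have h1 : RR β [1, 2, 0, 1, 3, 0, 0, 4, 0, 0] [1, 2, 1, 0, 3, 0, 0, 4, 0, 0] := h
      have h2 : RR β [1, 2, 0, 1, 3, 0, 0, 0, 0] [1, 2, 1, 0, 3, 0, 0, 0, 0] :=
        sub' gd h1 rfl rfl
      exact tr (RR.symm (kf (p := [1, 2, 0, 1, 3]) (q := [])))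
        (tr h2 (kf (p := [1, 2, 1, 0, 3]) (q := [])))

end Pool.Agent.MWN.H26
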